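import Mathlib

/-!
# Module Q: a finitely presented algebra with infinitely many independent idempotents

For the noncommutative motives project (helper54, MP_b5fdc6_ag).
-/

set_option autoImplicit false

namespace Pool.Agent.Helper5.NCM

open FreeAlgebra

/-- Relators of the group algebra of Baumslag's metabelian group; generators
`a = ι 0`, `s = ι 1`, `s' = ι 2`, `t = ι 3`, `t' = ι 4`. -/
def rel (k : Type) [Field k] : Fin 8 → FreeAlgebra k (Fin 5) :=
  ![ι k 0 * ι k 0 - 1,
    ι k 1 * ι k 2 - 1,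
    ι k 2 * ι k 1 - 1,
    ι k 3 * ι k 4 - 1,
    ι k 4 * ι k 3 - 1,
    ι k 1 * ι k 3 - ι k 3 * ι k 1,
    ι k 0 * (ι k 3 * ι k 0 * ι k 4) - (ι k 3 * ι k 0 * ι k 4) * ι k 0,
    ι k 1 * ι k 0 * ι k 2 - ι k 0 * (ι k 3 * ι k 0 * ι k 4)]

section grp

variable {G : Type*} [Group G] (a s t : G)

/-- conjugates of `a` by powers of `t` -/
def cj (n : ℕ) : G := t ^ n * a * (t ^ n)⁻¹

theorem cj_zero : cj a t 0 = a := by simp [cj]

theorem cj_add (m n : ℕ) : cj a t (m + n) = t ^ m * cj a t n * (t ^ m)⁻¹ := by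
  simp only [cj, pow_add]
  group

theorem cj_shift {i j : ℕ} (m : ℕ) (h : Commute (cj a t i) (cj a t j)) :
    Commute (cj a t (m + i)) (cj a t (m + j)) := by
  rw [cj_add, cj_add]
  unfold Commute SemiconjBy at *
  have : t ^ m * cj a t i * (t ^ m)⁻¹ * (t ^ m * cj a t j * (t ^ m)⁻¹)
      = t ^ m * (cj a t i * cj a t j) * (t ^ m)⁻¹ := by group
  rw [this, h]
  group

variable {a s t}

theorem cj_conj_s (hst : s * t = t * s) (hs : s * a * s⁻¹ = a * (t * a * t⁻¹)) (n : ℕ) :
    s * cj a t n * s⁻¹ = cj a t n * cj a t (n + 1) := by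
  have hc : Commute s (t ^ n) := Commute.pow_right hst n
  have h1 : s * cj a t n * s⁻¹ = t ^ n * (s * a * s⁻¹) * (t ^ n)⁻¹ := by
    unfold cj
    have e1 : s * t ^ n = t ^ n * s := hc
    have e2 : (t ^ n)⁻¹ * s⁻¹ = s⁻¹ * (t ^ n)⁻¹ := by
      rw [← mul_inv_rev, ← mul_inv_rev, e1]
    calc s * (t ^ n * a * (t ^ n)⁻¹) * s⁻¹ = (s * t ^ n) * a * ((t ^ n)⁻¹ * s⁻¹) := by group
      _ = (t ^ n * s) * a * (s⁻¹ * (t ^ n)⁻¹) := by rw [e1, e2]
      _ = _ := by group
  rw [h1, hs]
  unfold cj
  rw [pow_succ]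
  group

theorem cj_comm (hst : s * t = t * s) (hs : s * a * s⁻¹ = a * (t * a * t⁻¹))
    (h1 : a * (t * a * t⁻¹) = (t * a * t⁻¹) * a) (n : ℕ) :
    Commute (cj a t 0) (cj a t n) := by
  induction n using Nat.strong_induction_on with
  | _ n ih =>
    rcases n with _ | n
    · exact Commute.refl _
    rcases n with _ | n
    · have : cj a t (0 + 1) = t * a * t⁻¹ := by simp [cj]
      rw [this, cj_zero]
      exact h1
    -- now the index is n + 1 + 1, induction hypothesis for `n + 1`
    have h0 := ih (n + 1) (by omega)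
    have hc : Commute (cj a t 0 * cj a t 1) (cj a t (n + 1) * cj a t (n + 1 + 1)) := by
      have e0 := cj_conj_s hst hs 0
      have e1 := cj_conj_s hst hs (n + 1)
      rw [zero_add] at e0
      rw [← e0, ← e1]
      unfold Commute SemiconjBy at *
      have : s * cj a t 0 * s⁻¹ * (s * cj a t (n + 1) * s⁻¹)
        = s * (cj a t 0 * cj a t (n + 1)) * s⁻¹ := by group
      rw [this, h0]
      group
    have h1n : Commute (cj a t 1) (cj a t (n + 1)) := by
      have := cj_shift a t 1 (ih n (by omega))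
      rwa [add_zero, add_comm 1 n] at this
    have h1n' : Commute (cj a t 1) (cj a t (n + 1 + 1)) := by
      have := cj_shift a t 1 h0
      rwa [add_zero, add_comm 1 (n + 1)] at this
    set A0 := cj a t 0
    set A1 := cj a t 1
    set An := cj a t (n + 1)
    set Am := cj a t (n + 1 + 1)
    have key : An * (A0 * Am) * A1 = An * (Am * A0) * A1 := by
      calc An * (A0 * Am) * A1 = (An * A0) * (Am * A1) := by group
        _ = (A0 * An) * (A1 * Am) := by rw [h0.eq, h1n'.eq]
        _ = A0 * (An * A1) * Am := by group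
        _ = A0 * (A1 * An) * Am := by rw [h1n.eq]
        _ = (A0 * A1) * (An * Am) := by group
        _ = (An * Am) * (A0 * A1) := hc
        _ = _ := by group
    have := mul_right_cancel key
    exact mul_left_cancel this

theorem cj_comm' (hst : s * t = t * s) (hs : s * a * s⁻¹ = a * (t * a * t⁻¹))
    (h1 : a * (t * a * t⁻¹) = (t * a * t⁻¹) * a) (m n : ℕ) :
    Commute (cj a t m) (cj a t n) := by
  rcases le_total m n with h | h
  · obtain ⟨c, rfl⟩ := Nat.exists_eq_add_of_le h
    have := cj_shift a t m (cj_comm hst hs h1 c)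
    rwa [add_zero] at this
  · obtain ⟨c, rfl⟩ := Nat.exists_eq_add_of_le h
    have := cj_shift a t n (cj_comm hst hs h1 c)
    rw [add_zero] at this
    exact this.symm

theorem prod_sq (ha : a * a = 1) (hst : s * t = t * s) (hs : s * a * s⁻¹ = a * (t * a * t⁻¹))
    (h1 : a * (t * a * t⁻¹) = (t * a * t⁻¹) * a) (L : List ℕ) :
    (L.map (cj a t)).prod * (L.map (cj a t)).prod = 1 := by
  induction L with
  | nil => simp
  | cons m L ih =>
    have hc : Commute (cj a t m) (L.map (cj a t)).prod := by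
      apply Commute.list_prod_right
      intro x hx
      obtain ⟨n, -, rfl⟩ := List.mem_map.1 hx
      exact cj_comm' hst hs h1 m n
    have hsq : cj a t m * cj a t m = 1 := by
      unfold cj
      calc t ^ m * a * (t ^ m)⁻¹ * (t ^ m * a * (t ^ m)⁻¹) = t ^ m * (a * a) * (t ^ m)⁻¹ := by
            group
        _ = 1 := by rw [ha]; group
    rw [List.map_cons, List.prod_cons]
    calc cj a t m * (L.map (cj a t)).prod * (cj a t m * (L.map (cj a t)).prod)
        = cj a t m * ((L.map (cj a t)).prod * cj a t m) * (L.map (cj a t)).prod := by group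
      _ = cj a t m * (cj a t m * (L.map (cj a t)).prod) * (L.map (cj a t)).prod := by rw [hc.eq]
      _ = (cj a t m * cj a t m) * ((L.map (cj a t)).prod * (L.map (cj a t)).prod) := by group
      _ = 1 := by rw [hsq, ih, one_mul]

end grp

/-- The product of the conjugates `t^m a t'^m`, `m ∈ L`. -/
noncomputable def gL (k : Type) [Field k] (L : List ℕ) : FreeAlgebra k (Fin 5) :=
  (L.map fun m => ι k 3 ^ m * ι k 0 * ι k 4 ^ m).prod

/-- The idempotent `(1 - g) / 2`. -/
noncomputable def eL (k : Type) [Field k] (L : List ℕ) : FreeAlgebra k (Fin 5) :=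
  (2 : k)⁻¹ • (1 - gL k L)

/-- In a ring where the relations hold, the image of `gL` is an involution. -/
theorem gL_sq (k : Type) [Field k] {A : Type*} [Ring A] (φ : FreeAlgebra k (Fin 5) →+* A)
    (hφ : ∀ i, φ (rel k i) = 0) (L : List ℕ) : φ (gL k L) * φ (gL k L) = 1 := by
  set x : Fin 5 → A := fun i => φ (ι k i) with hx
  have r0 : x 0 * x 0 = 1 := by
    have := hφ 0
    simp only [rel, Matrix.cons_val_zero, map_sub, map_mul, map_one] at this
    exact sub_eq_zero.1 this
  have r1 : x 1 * x 2 = 1 := by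
    have := hφ 1
    simp only [rel, Matrix.cons_val_one, Matrix.cons_val_zero, map_sub, map_mul, map_one] at this
    exact sub_eq_zero.1 this
  have r2 : x 2 * x 1 = 1 := by
    have := hφ 2
    simp only [rel, Matrix.cons_val, map_sub, map_mul, map_one] at this
    exact sub_eq_zero.1 this
  have r3 : x 3 * x 4 = 1 := by
    have := hφ 3
    simp only [rel, Matrix.cons_val, map_sub, map_mul, map_one] at this
    exact sub_eq_zero.1 this
  have r4 : x 4 * x 3 = 1 := by
    have := hφ 4
    simp only [rel, Matrix.cons_val, map_sub, map_mul, map_one] at this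
    exact sub_eq_zero.1 this
  have r5 : x 1 * x 3 = x 3 * x 1 := by
    have := hφ 5
    simp only [rel, Matrix.cons_val, map_sub, map_mul, map_one] at this
    exact sub_eq_zero.1 this
  have r6 : x 0 * (x 3 * x 0 * x 4) = (x 3 * x 0 * x 4) * x 0 := by
    have := hφ 6
    simp only [rel, Matrix.cons_val, map_sub, map_mul, map_one] at this
    exact sub_eq_zero.1 this
  have r7 : x 1 * x 0 * x 2 = x 0 * (x 3 * x 0 * x 4) := by
    have := hφ 7
    simp only [rel, Matrix.cons_val, map_sub, map_mul, map_one] at this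
    exact sub_eq_zero.1 this
  let a : Aˣ := ⟨x 0, x 0, r0, r0⟩
  let s : Aˣ := ⟨x 1, x 2, r1, r2⟩
  let t : Aˣ := ⟨x 3, x 4, r3, r4⟩
  have ha : a * a = 1 := Units.ext r0
  have hst : s * t = t * s := Units.ext r5
  have h1 : a * (t * a * t⁻¹) = (t * a * t⁻¹) * a := Units.ext r6
  have hs : s * a * s⁻¹ = a * (t * a * t⁻¹) := Units.ext r7
  have hsq := prod_sq ha hst hs h1 L
  have hg : φ (gL k L) = (((L.map (cj a t)).prod : Aˣ) : A) := by
    unfold gL
    rw [map_list_prod, ← Units.coeHom_apply, map_list_prod]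
    simp only [List.map_map]
    congr 1
    apply List.map_congr_left
    intro m _
    simp only [Function.comp_apply, map_mul, map_pow, cj, Units.coeHom_apply, Units.val_mul,
      Units.val_pow_eq_pow_val]
    rw [← inv_pow, Units.val_pow_eq_pow_val]
    rfl
  rw [hg, ← Units.val_mul, hsq, Units.val_one]

theorem eL_idem (k : Type) [Field k] (h2 : (2 : k) ≠ 0) (L : List ℕ) :
    eL k L * eL k L - eL k L ∈ TwoSidedIdeal.span (Set.range (rel k)) := by
  set I := TwoSidedIdeal.span (Set.range (rel k)) with hI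
  have hmem : ∀ x, x ∈ I ↔ I.ringCon.mk' x = 0 := by
    intro x
    rw [TwoSidedIdeal.mem_iff, ← map_zero I.ringCon.mk']
    exact (RingCon.eq I.ringCon).symm
  have hrel : ∀ i, I.ringCon.mk' (rel k i) = 0 := fun i =>
    (hmem _).1 (TwoSidedIdeal.subset_span ⟨i, rfl⟩)
  have hsq := gL_sq k I.ringCon.mk' hrel L
  have key : eL k L * eL k L - eL k L = ((2 : k)⁻¹ * (2 : k)⁻¹) • (gL k L * gL k L - 1) := by
    have h3 : (2 : k)⁻¹ = ((2 : k)⁻¹ * (2 : k)⁻¹) * 2 := by field_simp
    unfold eL
    generalize gL k L = g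
    calc (2 : k)⁻¹ • (1 - g) * (2 : k)⁻¹ • (1 - g) - (2 : k)⁻¹ • (1 - g)
        = ((2 : k)⁻¹ * (2 : k)⁻¹) • ((1 - g) * (1 - g))
          - (((2 : k)⁻¹ * (2 : k)⁻¹) * 2) • (1 - g) := by rw [smul_mul_smul_comm, ← h3]
      _ = ((2 : k)⁻¹ * (2 : k)⁻¹) • ((1 - g) * (1 - g) - ((1 - g) + (1 - g))) := by
          rw [mul_smul _ (2 : k) (1 - g), two_smul, ← smul_sub]
      _ = _ := by
          congr 1
          noncomm_ring
  rw [hmem, key, Algebra.smul_def, map_mul, map_sub, map_mul I.ringCon.mk' (gL k L), hsq, map_one,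
    sub_self, mul_zero]

section rep

variable (k : Type) [Field k]

/-- The sign of an element of `ZMod 2`. -/
def sg (z : ZMod 2) : k := if z = 0 then 1 else -1

theorem sg_zero : sg k 0 = 1 := by simp [sg]

theorem sg_one : sg k 1 = -1 := by simp [sg]

theorem zmod2_cases (z : ZMod 2) : z = 0 ∨ z = 1 := by
  revert z; decide

theorem sg_add (y z : ZMod 2) : sg k (y + z) = sg k y * sg k z := by
  rcases zmod2_cases y with rfl | rfl <;> rcases zmod2_cases z with rfl | rfl
  · simp [sg_zero]
  · simp [sg_zero]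
  · simp [sg_zero]
  · have : (1 : ZMod 2) + 1 = 0 := by decide
    rw [this, sg_zero, sg_one]; ring

theorem sg_mul_self (z : ZMod 2) : sg k z * sg k z = 1 := by
  rw [← sg_add]
  rcases zmod2_cases z with rfl | rfl
  · simp [sg_zero]
  · have : (1 : ZMod 2) + 1 = 0 := by decide
    rw [this, sg_zero]

variable {V : Type} [Fintype V] [DecidableEq V]

/-- permutation matrix -/
def pm (σ : Equiv.Perm V) : Matrix V V k := Matrix.of fun x y => if σ x = y then 1 else 0

theorem pm_mul (σ τ : Equiv.Perm V) : pm k σ * pm k τ = pm k (σ.trans τ) := by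
  ext x z
  simp only [pm, Matrix.mul_apply, Matrix.of_apply, Equiv.trans_apply, ite_mul, one_mul, zero_mul,
    Finset.sum_ite_eq, Finset.mem_univ, if_true]
  split_ifs <;> rfl

theorem pm_refl : pm k (Equiv.refl V) = 1 := by
  ext x y
  simp only [pm, Matrix.of_apply, Equiv.refl_apply, Matrix.one_apply]
  split_ifs <;> rfl

theorem pm_mul_symm (σ : Equiv.Perm V) : pm k σ * pm k σ.symm = 1 := by
  rw [pm_mul, Equiv.self_trans_symm, pm_refl]

theorem pm_symm_mul (σ : Equiv.Perm V) : pm k σ.symm * pm k σ = 1 := by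
  rw [pm_mul, Equiv.symm_trans_self, pm_refl]

theorem pm_diag (σ : Equiv.Perm V) (f : V → k) :
    pm k σ * Matrix.diagonal f = Matrix.diagonal (f ∘ σ) * pm k σ := by
  ext x z
  rw [Matrix.mul_diagonal, Matrix.diagonal_mul]
  simp only [pm, Matrix.of_apply, Function.comp_apply]
  split_ifs with h
  · rw [h]; ring
  · ring

theorem pm_conj (σ : Equiv.Perm V) (f : V → k) :
    pm k σ * Matrix.diagonal f * pm k σ.symm = Matrix.diagonal (f ∘ σ) := by
  rw [pm_diag, mul_assoc, pm_mul_symm, mul_one]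

theorem pm_pow_conj (σ : Equiv.Perm V) (m : ℕ) (f : V → k) :
    pm k σ ^ m * Matrix.diagonal f * pm k σ.symm ^ m = Matrix.diagonal (f ∘ σ^[m]) := by
  induction m generalizing f with
  | zero => simp
  | succ m ih =>
    rw [pow_succ, pow_succ']
    have : pm k σ ^ m * pm k σ * Matrix.diagonal f * (pm k σ.symm * pm k σ.symm ^ m)
        = pm k σ ^ m * (pm k σ * Matrix.diagonal f * pm k σ.symm) * pm k σ.symm ^ m := by
      noncomm_ring
    rw [this, pm_conj, ih, Function.iterate_succ']
    rfl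

/-- The action of a unit on the additive dual. -/
def act {R : Type} [CommRing R] (u : Rˣ) : Equiv.Perm (R →+ ZMod 2) where
  toFun x := x.comp (AddMonoidHom.mulLeft (u : R))
  invFun x := x.comp (AddMonoidHom.mulLeft ((u⁻¹ : Rˣ) : R))
  left_inv x := by ext r; simp
  right_inv x := by ext r; simp

theorem act_apply {R : Type} [CommRing R] (u : Rˣ) (x : R →+ ZMod 2) (r : R) :
    act u x r = x (u * r) := rfl

theorem act_iter {R : Type} [CommRing R] (u : Rˣ) (m : ℕ) (x : R →+ ZMod 2) (r : R) :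
    (act u)^[m] x r = x ((u : R) ^ m * r) := by
  induction m generalizing x with
  | zero => simp
  | succ m ih =>
    rw [Function.iterate_succ_apply, ih, act_apply, pow_succ']
    congr 1
    ring

theorem exists_rep (h2 : (2 : k) ≠ 0) {R : Type} [CommRing R] [Finite R] (u v : Rˣ)
    (huv : (v : R) = 1 + u) :
    ∃ (m : ℕ) (ρ : FreeAlgebra k (Fin 5) →ₐ[k] Matrix (Fin m) (Fin m) k),
      (∀ i, ρ (rel k i) = 0) ∧
      ∀ L : List ℕ, (ρ (eL k L)).rank ≠ 0 ↔
        ∃ x : R →+ ZMod 2, x ((L.map fun m => (u : R) ^ m).sum) ≠ 0 := by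
  classical
  haveI : Finite (R →+ ZMod 2) := DFunLike.finite _
  letI : Fintype (R →+ ZMod 2) := Fintype.ofFinite _
  set D : Matrix (R →+ ZMod 2) (R →+ ZMod 2) k := Matrix.diagonal fun x => sg k (x 1) with hD
  set S := pm k (act v)
  set S' := pm k (act v).symm
  set T := pm k (act u)
  set T' := pm k (act u).symm
  let ρ : FreeAlgebra k (Fin 5) →ₐ[k] Matrix (R →+ ZMod 2) (R →+ ZMod 2) k :=
    FreeAlgebra.lift k ![D, S, S', T, T']
  have q0 : ρ (ι k 0) = D := by simp [ρ]
  have q1 : ρ (ι k 1) = S := by simp [ρ]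
  have q2 : ρ (ι k 2) = S' := by simp [ρ]
  have q3 : ρ (ι k 3) = T := by simp [ρ]
  have q4 : ρ (ι k 4) = T' := by simp [ρ]
  have hTD : T * D * T' = Matrix.diagonal fun x => sg k (x u) := by
    rw [hD, pm_conj]
    congr 1
    ext x
    simp only [Function.comp_apply, act_apply, mul_one]
  have hSD : S * D * S' = Matrix.diagonal fun x => sg k (x v) := by
    rw [hD, pm_conj]
    congr 1
    ext x
    simp only [Function.comp_apply, act_apply, mul_one]
  have hrel : ∀ i, ρ (rel k i) = 0 := by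
    intro i
    fin_cases i
    · simp only [rel, Fin.zero_eta, Matrix.cons_val_zero, map_sub, map_mul, map_one, q0]
      rw [sub_eq_zero, hD, Matrix.diagonal_mul_diagonal, ← Matrix.diagonal_one]
      congr 1
      ext x
      exact sg_mul_self k _
    · simp only [rel, Fin.mk_one, Matrix.cons_val_one, Matrix.cons_val_zero, map_sub, map_mul,
        map_one, q1, q2]
      rw [sub_eq_zero]
      exact pm_mul_symm k _
    · simp only [rel, Fin.reduceFinMk, Matrix.cons_val, map_sub, map_mul, map_one, q1, q2]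
      rw [sub_eq_zero]
      exact pm_symm_mul k _
    · simp only [rel, Fin.reduceFinMk, Matrix.cons_val, map_sub, map_mul, map_one, q3, q4]
      rw [sub_eq_zero]
      exact pm_mul_symm k _
    · simp only [rel, Fin.reduceFinMk, Matrix.cons_val, map_sub, map_mul, map_one, q3, q4]
      rw [sub_eq_zero]
      exact pm_symm_mul k _
    · simp only [rel, Fin.reduceFinMk, Matrix.cons_val, map_sub, map_mul, q1, q3]
      rw [sub_eq_zero, pm_mul, pm_mul]
      congr 1
      ext x r
      simp only [Equiv.trans_apply, act_apply]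
      congr 1
      ring
    · simp only [rel, Fin.reduceFinMk, Matrix.cons_val, map_sub, map_mul, q0, q3, q4]
      rw [sub_eq_zero, hTD, hD, Matrix.diagonal_mul_diagonal, Matrix.diagonal_mul_diagonal]
      congr 1
      ext x
      ring
    · simp only [rel, Fin.reduceFinMk, Matrix.cons_val, map_sub, map_mul, q0, q1, q2, q3, q4]
      rw [sub_eq_zero, hTD, hSD, hD, Matrix.diagonal_mul_diagonal]
      congr 1
      ext x
      rw [huv, map_add, sg_add]
  have hg : ∀ L : List ℕ, ρ (gL k L) =
      Matrix.diagonal fun x => sg k (x ((L.map fun m => (u : R) ^ m).sum)) := by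
    intro L
    induction L with
    | nil =>
      simp only [gL, List.map_nil, List.prod_nil, map_one, List.sum_nil, map_zero, sg_zero]
      exact (Matrix.diagonal_one).symm
    | cons m L ih =>
      have : gL k (m :: L) = (ι k 3 ^ m * ι k 0 * ι k 4 ^ m) * gL k L := by
        simp [gL]
      rw [this, map_mul, ih, map_mul, map_mul, map_pow, map_pow, q0, q3, q4, hD, pm_pow_conj,
        Matrix.diagonal_mul_diagonal]
      congr 1
      ext x
      rw [Function.comp_apply, act_iter, mul_one, List.map_cons, List.sum_cons, map_add, sg_add]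
  have he : ∀ L : List ℕ, ρ (eL k L) =
      Matrix.diagonal fun x => if x ((L.map fun m => (u : R) ^ m).sum) = 0 then 0 else 1 := by
    intro L
    rw [eL, map_smul, map_sub, map_one, hg, ← Matrix.diagonal_one, Matrix.diagonal_sub,
      ← Matrix.diagonal_smul]
    congr 1
    ext x
    simp only [Pi.smul_apply, smul_eq_mul]
    rcases zmod2_cases (x ((L.map fun m => (u : R) ^ m).sum)) with h | h
    · rw [h]; simp [sg_zero]
    · rw [h, sg_one]
      simp only [one_ne_zero, if_false]
      field_simp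
      ring
  let e : (R →+ ZMod 2) ≃ Fin (Fintype.card (R →+ ZMod 2)) := Fintype.equivFin _
  refine ⟨Fintype.card (R →+ ZMod 2), (Matrix.reindexAlgEquiv k k e).toAlgHom.comp ρ, ?_, ?_⟩
  · intro i
    have : ((Matrix.reindexAlgEquiv k k e).toAlgHom.comp ρ) (rel k i)
        = Matrix.reindexAlgEquiv k k e (ρ (rel k i)) := rfl
    rw [this, hrel, map_zero]
  · intro L
    have : ((Matrix.reindexAlgEquiv k k e).toAlgHom.comp ρ) (eL k L)
        = Matrix.reindex e e (ρ (eL k L)) := rfl
    rw [this, Matrix.rank_reindex, he, Matrix.rank_diagonal, Ne, Fintype.card_eq_zero_iff,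
      not_isEmpty_iff]
    constructor
    · rintro ⟨⟨x, hx⟩⟩
      refine ⟨x, fun h => hx ?_⟩
      rw [if_pos h]
    · rintro ⟨x, hx⟩
      refine ⟨⟨x, ?_⟩⟩
      rw [if_neg hx]
      exact one_ne_zero

end rep

open Polynomial in
/-- The polynomial `1 + X + X^2` over the field with two elements. -/
noncomputable def hp : (ZMod 2)[X] := 1 + X + X ^ 2

open Polynomial in
theorem hp_monic : hp.Monic := by
  unfold hp
  monicity!

open Polynomial in
theorem hp_natDegree : hp.natDegree = 2 := by
  unfold hp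
  compute_degree!

open Polynomial in
theorem sum_support (p : (ZMod 2)[X]) : ((p.support.toList).map fun m => (X : (ZMod 2)[X]) ^ m).sum
    = p := by
  conv_rhs => rw [p.as_sum_support_C_mul_X_pow]
  rw [Finset.sum_map_toList]
  apply Finset.sum_congr rfl
  intro m hm
  have h1 : p.coeff m = 1 := by
    rcases zmod2_cases (p.coeff m) with h | h
    · exact absurd h (Polynomial.mem_support_iff.1 hm)
    · exact h
  rw [h1, map_one, one_mul]

/-- The index list of the `l`-th idempotent: the support of `(1 + X + X^2)^l`. -/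
noncomputable def Ls (l : ℕ) : List ℕ := (hp ^ l).support.toList

open Polynomial in
theorem exists_rep_j (k : Type) [Field k] (h2 : (2 : k) ≠ 0) (j : ℕ) :
    ∃ (m : ℕ) (ρ : FreeAlgebra k (Fin 5) →ₐ[k] Matrix (Fin m) (Fin m) k),
      (∀ i, ρ (rel k i) = 0) ∧ ∀ l : ℕ, (ρ (eL k (Ls l))).rank ≠ 0 ↔ l ≤ j := by
  set R := AdjoinRoot (hp ^ (j + 1)) with hR
  have hmon : (hp ^ (j + 1)).Monic := hp_monic.pow _
  haveI : Module.Finite (ZMod 2) R := hmon.finite_adjoinRoot
  haveI : Finite R := Module.finite_of_finite (ZMod 2)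
  set x : R := AdjoinRoot.mk (hp ^ (j + 1)) X with hx
  have hnil : IsNilpotent (AdjoinRoot.mk (hp ^ (j + 1)) hp) :=
    ⟨j + 1, by rw [← map_pow, AdjoinRoot.mk_self]⟩
  have hchar : (1 : (ZMod 2)[X]) + 1 = 0 := by
    rw [← C_1, ← C_add]
    have : (1 : ZMod 2) + 1 = 0 := by decide
    rw [this, C_0]
  have hprod : (X : (ZMod 2)[X]) * (1 + X) = 1 + hp := by
    unfold hp
    linear_combination -hchar
  have hunit : IsUnit (x * (1 + x)) := by
    have : x * (1 + x) = 1 + AdjoinRoot.mk (hp ^ (j + 1)) hp := by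
      rw [hx, ← map_one (AdjoinRoot.mk (hp ^ (j + 1))), ← map_add, ← map_mul, hprod, map_add]
    rw [this]
    exact hnil.isUnit_one_add
  have hux : IsUnit x := isUnit_of_mul_isUnit_left hunit
  have hux1 : IsUnit (1 + x) := isUnit_of_mul_isUnit_right hunit
  obtain ⟨u, hu⟩ := hux
  obtain ⟨v, hv⟩ := hux1
  obtain ⟨m, ρ, h1, h3⟩ := exists_rep k h2 u v (by rw [hu, hv])
  refine ⟨m, ρ, h1, fun l => ?_⟩
  rw [h3]
  have hs : ((Ls l).map fun m => (u : R) ^ m).sum = AdjoinRoot.mk (hp ^ (j + 1)) (hp ^ l) := by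
    conv_rhs => rw [← sum_support (hp ^ l)]
    rw [map_list_sum, List.map_map]
    congr 1
    apply List.map_congr_left
    intro i _
    rw [Function.comp_apply, map_pow, hu]
  rw [hs]
  have hnu : ¬ IsUnit hp := by
    intro h
    have := Polynomial.natDegree_eq_zero_of_isUnit h
    rw [hp_natDegree] at this
    omega
  constructor
  · rintro ⟨φ, hφ⟩
    by_contra hlt
    apply hφ
    have : AdjoinRoot.mk (hp ^ (j + 1)) (hp ^ l) = 0 :=
      AdjoinRoot.mk_eq_zero.2 (pow_dvd_pow _ (by omega))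
    rw [this, map_zero]
  · intro hle
    have hne : AdjoinRoot.mk (hp ^ (j + 1)) (hp ^ l) ≠ 0 := by
      intro h
      have := AdjoinRoot.mk_eq_zero.1 h
      rw [pow_dvd_pow_iff hp_monic.ne_zero hnu] at this
      omega
    have := (Module.forall_dual_apply_eq_zero_iff (ZMod 2)
      (AdjoinRoot.mk (hp ^ (j + 1)) (hp ^ l))).not.2 hne
    push_neg at this
    obtain ⟨φ, hφ⟩ := this
    exact ⟨φ.toAddMonoidHom, hφ⟩

theorem exists_pairing (k : Type) [Field k] (h2 : (2 : k) ≠ 0) (n : ℕ) :
    ∃ (e : Fin n → FreeAlgebra k (Fin 5)) (m : Fin n → ℕ)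
      (ρ : ∀ j, FreeAlgebra k (Fin 5) →ₐ[k] Matrix (Fin (m j)) (Fin (m j)) k),
      (∀ l, e l * e l - e l ∈ TwoSidedIdeal.span (Set.range (rel k))) ∧
      (∀ j i, ρ j (rel k i) = 0) ∧
      (Matrix.of fun j l : Fin n => (((ρ j (e l)).rank : ℕ) : ℚ)).det ≠ 0 := by
  choose m ρ h1 h3 using fun j : ℕ => exists_rep_j k h2 j
  refine ⟨fun l => eL k (Ls l), fun j => m j, fun j => ρ j, fun l => eL_idem k h2 _,
    fun j i => h1 _ _, ?_⟩
  rw [Matrix.det_of_isLowerTriangular]
  · rw [Finset.prod_ne_zero_iff]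
    intro j _
    rw [Matrix.of_apply, Nat.cast_ne_zero]
    exact (h3 j j).2 le_rfl
  · intro j l hjl
    have hjl' : j < l := hjl
    rw [Matrix.of_apply, Nat.cast_eq_zero]
    by_contra h
    have := (h3 j l).1 h
    exact absurd hjl' (not_lt.2 this)

end Pool.Agent.Helper5.NCM
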